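import Mathlib
import Pool.Agent.H.MP_fc6768_gt.B

set_option autoImplicit false

namespace Pool.Agent.Results.MP_27b523_gt.Red

open Set Cardinal Pool.Agent.H.MP_9c4169_gt Pool.Agent.H.MP_fc6768_gt Pool.Agent.H.MP_7b7e09_gt

theorem result (κ : Cardinal.{0}) (hκ : κ.IsRegular) (X : Set (ℕ → Bool)) (hX : FU2 κ X)
    (Y : Set ℝ) (hY0 : Y.Infinite) (hY : Cho (Om (Op Y)) (Ga (Op Y)))
    (h : κ ≤ max covM gw ∨ dd ≤ max covM gw ∨ ∀ S ⊆ X, #S < κ → S.Infinite →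
      S1 (Ga (Op (S × Y))) (Om (Op (S × Y)))) :
    S1 (Ga (Op (↥(X ∪ Fn) × Y))) (Om (Op (↥(X ∪ Fn) × Y))) := by
  have := hY0.to_subtype
  refine main' hκ hX (gg_of hY) ?_
  rcases h with h | h | h
  exacts [Or.inl h, Or.inl ((led hκ hX).trans h), Or.inr h]

end Pool.Agent.Results.MP_27b523_gt.Red
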